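import Pool.Agent.helper56.CY.Spec

/-!
# Row cy:PLD (MP_45d809_mp), owner helper56
-/

namespace Pool.Agent.CY
open Finset CT

section PLD
open Classical
variable {V : Type} [Fintype V] (G : SimpleGraph V)

private noncomputable def PLD_T : (G.edgeSet → ZMod 2) →ₗ[ZMod 2] (V → ZMod 2) where
  toFun y := fun v => ∑ d ∈ (univ : Finset G.Dart).filter (fun d => d.fst = v), y ⟨d.edge, d.edge_mem⟩
  map_add' y z := by
    funext v
    simp [sum_add_distrib]
  map_smul' c y := by
    funext v
    simp [mul_sum]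

private noncomputable def PLD_S (V : Type) [Fintype V] : (V → ZMod 2) →ₗ[ZMod 2] ZMod 2 where
  toFun φ := ∑ v, φ v
  map_add' y z := by simp [sum_add_distrib]
  map_smul' c y := by simp [mul_sum]

private theorem PLD_two (a : ZMod 2) : a + a = 0 := by
  revert a
  decide

private theorem PLD_ST (y : G.edgeSet → ZMod 2) : PLD_S V (PLD_T G y) = 0 := by
  change ∑ v, ∑ d ∈ (univ : Finset G.Dart).filter (fun d => d.fst = v), y ⟨d.edge, d.edge_mem⟩ = 0
  refine (sum_fiberwise (univ : Finset G.Dart) (fun d => d.fst) (fun d => y ⟨d.edge, d.edge_mem⟩)).trans ?_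
  refine sum_involution (fun d _ => d.symm) ?_ ?_ ?_ ?_
  · intro d _
    have : (⟨d.symm.edge, d.symm.edge_mem⟩ : G.edgeSet) = ⟨d.edge, d.edge_mem⟩ :=
      Subtype.ext (SimpleGraph.Dart.edge_symm d)
    rw [this]
    exact PLD_two _
  · intro d _ _ h
    exact SimpleGraph.Dart.symm_ne d h
  · intro d _
    exact mem_univ _
  · intro d _
    exact SimpleGraph.Dart.symm_symm d

private theorem PLD_adj (a b : V) (h : G.Adj a b) :
    PLD_T G (Pi.single ⟨s(a, b), h⟩ 1) = Pi.single a 1 + Pi.single b 1 := by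
  funext v
  change ∑ d ∈ (univ : Finset G.Dart).filter (fun d => d.fst = v),
    (Pi.single (⟨s(a, b), h⟩ : G.edgeSet) (1 : ZMod 2) : G.edgeSet → ZMod 2) ⟨d.edge, d.edge_mem⟩ = _
  rw [sum_filter]
  set D : G.Dart := ⟨(a, b), h⟩ with hD
  have hne : D ≠ D.symm := (SimpleGraph.Dart.symm_ne D).symm
  have e1 : ∀ d : G.Dart, d ∉ ({D, D.symm} : Finset G.Dart) → (if d.fst = v then
      (Pi.single (⟨s(a, b), h⟩ : G.edgeSet) (1 : ZMod 2) : G.edgeSet → ZMod 2) ⟨d.edge, d.edge_mem⟩ else 0) = 0 := by
    intro d hd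
    have : (⟨d.edge, d.edge_mem⟩ : G.edgeSet) ≠ ⟨s(a, b), h⟩ := by
      intro he
      have h1 : d.edge = D.edge := congrArg Subtype.val he
      rw [SimpleGraph.dart_edge_eq_iff] at h1
      apply hd
      rw [mem_insert, mem_singleton]
      exact h1
    rw [Pi.single_eq_of_ne this]
    simp
  rw [← sum_subset (subset_univ ({D, D.symm} : Finset G.Dart)) (fun d _ hd => e1 d hd), sum_pair hne]
  have e2 : (⟨D.edge, D.edge_mem⟩ : G.edgeSet) = ⟨s(a, b), h⟩ := rfl
  have e3 : (⟨D.symm.edge, D.symm.edge_mem⟩ : G.edgeSet) = ⟨s(a, b), h⟩ :=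
    Subtype.ext (SimpleGraph.Dart.edge_symm D)
  rw [e2, e3, Pi.single_eq_same]
  change (if a = v then (1 : ZMod 2) else 0) + (if b = v then 1 else 0) = _
  rw [Pi.add_apply, Pi.single_apply, Pi.single_apply]
  simp only [eq_comm]

private theorem PLD_walk (a b : V) (p : G.Walk a b) :
    (Pi.single a 1 + Pi.single b 1 : V → ZMod 2) ∈ LinearMap.range (PLD_T G) := by
  induction p with
  | nil =>
    rename_i x
    have : (Pi.single x 1 + Pi.single x 1 : V → ZMod 2) = 0 := by
      funext v
      exact PLD_two _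
    rw [this]
    exact Submodule.zero_mem _
  | cons hadj p ih =>
    rename_i x y z
    have h1 : (Pi.single x 1 + Pi.single y 1 : V → ZMod 2) ∈ LinearMap.range (PLD_T G) :=
      ⟨_, PLD_adj G x y hadj⟩
    have h2 : (Pi.single x 1 + Pi.single z 1 : V → ZMod 2) =
        (Pi.single x 1 + Pi.single y 1) + (Pi.single y 1 + Pi.single z 1) := by
      have h3 : (Pi.single y 1 + Pi.single y 1 : V → ZMod 2) = 0 := by
        funext v
        exact PLD_two _
      calc (Pi.single x 1 + Pi.single z 1 : V → ZMod 2) = Pi.single x 1 + 0 + Pi.single z 1 := by rw [add_zero]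
        _ = _ := by rw [← h3]; abel
    rw [h2]
    exact Submodule.add_mem _ h1 ih

private theorem PLD_range (hc : G.Connected) : LinearMap.range (PLD_T G) = LinearMap.ker (PLD_S V) := by
  apply le_antisymm
  · rintro _ ⟨y, rfl⟩
    exact PLD_ST G y
  · intro φ hφ
    have hφ2 : ∑ v, φ v = 0 := hφ
    obtain ⟨v₀⟩ := hc.nonempty
    have e1 : φ = ∑ v, φ v • (Pi.single v 1 + Pi.single v₀ 1 : V → ZMod 2) := by
      simp_rw [smul_add]
      rw [sum_add_distrib, ← sum_smul, hφ2, zero_smul, add_zero]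
      funext w
      rw [Finset.sum_apply]
      simp [Pi.single_apply]
    rw [e1]
    refine Submodule.sum_mem _ fun v _ => Submodule.smul_mem _ _ ?_
    obtain ⟨p⟩ := hc.preconnected v v₀
    exact PLD_walk G v v₀ p

private theorem PLD_card (hc : G.Connected) :
    Module.finrank (ZMod 2) (LinearMap.ker (PLD_T G)) + Fintype.card V = Nat.card G.edgeSet + 1 := by
  have h1 := LinearMap.finrank_range_add_finrank_ker (PLD_T G)
  have h2 := LinearMap.finrank_range_add_finrank_ker (PLD_S V)
  rw [PLD_range G hc] at h1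
  have h3 : LinearMap.range (PLD_S V) = ⊤ := by
    rw [LinearMap.range_eq_top]
    intro c
    obtain ⟨v₀⟩ := hc.nonempty
    refine ⟨Pi.single v₀ c, ?_⟩
    change ∑ v, (Pi.single v₀ c : V → ZMod 2) v = c
    simp [Pi.single_apply]
  rw [h3, finrank_top, Module.finrank_self, Module.finrank_fintype_fun_eq_card] at h2
  rw [Module.finrank_fintype_fun_eq_card] at h1
  rw [Nat.card_eq_fintype_card]
  omega

end PLD

theorem PLD : PLD_stmt := by
  classical
  intro V _ G hc
  have e1 : Nat.card {x : G.Dart → ZMod 2 // (∀ d, x d.symm = x d) ∧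
      ∀ v, ∑ d ∈ (univ : Finset G.Dart).filter (fun d => d.fst = v), x d = 0} =
      Nat.card (LinearMap.ker (PLD_T G)) := by
    symm
    refine Nat.card_congr (Equiv.ofBijective (fun y => ⟨fun d => y.1 ⟨d.edge, d.edge_mem⟩, ?_, ?_⟩) ⟨?_, ?_⟩)
    · intro d
      have : (⟨d.symm.edge, d.symm.edge_mem⟩ : G.edgeSet) = ⟨d.edge, d.edge_mem⟩ :=
        Subtype.ext (SimpleGraph.Dart.edge_symm d)
      exact congrArg y.1 this
    · intro v
      exact congrFun y.2 v
    · intro y z h
      apply Subtype.ext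
      funext e
      obtain ⟨e, he⟩ := e
      induction e using Sym2.ind with
      | _ a b =>
        have h1 := congrArg Subtype.val h
        exact congrFun h1 (⟨(a, b), he⟩ : G.Dart)
    · rintro ⟨x, hx, hx2⟩
      have hex : ∀ e : G.edgeSet, ∃ d : G.Dart, d.edge = e.1 := by
        rintro ⟨e, he⟩
        induction e using Sym2.ind with
        | _ a b => exact ⟨⟨(a, b), he⟩, rfl⟩
      choose f hf using hex
      have hval : ∀ d : G.Dart, x (f ⟨d.edge, d.edge_mem⟩) = x d := by
        intro d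
        have h1 := hf ⟨d.edge, d.edge_mem⟩
        simp only at h1
        rw [SimpleGraph.dart_edge_eq_iff] at h1
        rcases h1 with h1 | h1
        · rw [h1]
        · rw [h1, hx]
      refine ⟨⟨fun e => x (f e), ?_⟩, ?_⟩
      · rw [LinearMap.mem_ker]
        funext v
        change ∑ d ∈ (univ : Finset G.Dart).filter (fun d => d.fst = v), x (f ⟨d.edge, d.edge_mem⟩) = 0
        rw [sum_congr rfl fun d _ => hval d]
        exact hx2 v
      · apply Subtype.ext
        funext d
        exact hval d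
  have e2 : Nat.card (LinearMap.ker (PLD_T G)) = 2 ^ Module.finrank (ZMod 2) (LinearMap.ker (PLD_T G)) := by
    have := Module.natCard_eq_pow_finrank (K := ZMod 2) (V := LinearMap.ker (PLD_T G))
    rw [this, Nat.card_zmod]
  have e3 := PLD_card G hc
  have e4 : Nat.card {x : G.Dart → ZMod 2 // (∀ d, x d.symm = x d) ∧
      ∀ v, ∑ d ∈ (univ : Finset G.Dart).filter (fun d => d.fst = v), x d = 0} * 2 ^ Fintype.card V =
      2 ^ Nat.card G.edgeSet * 2 := by
    rw [e1, e2, ← pow_add, e3, pow_succ]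
  exact e4

end Pool.Agent.CY
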