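import Pool.Agent.helper56.CY.Spec

/-!
# Row cy:PLK (MP_45d809_mp), owner helper56
-/

namespace Pool.Agent.CY
open Finset CT

theorem PLK : PLK_stmt := by
  intro V G R g hc hphi hsym
  have hrot : ∀ d, g (R.rot d) = g d := by
    intro d
    have h := hphi d.symm
    have e : R.phi d.symm = R.rot d := by
      change R.rot (SimpleGraph.Dart.symm d.symm) = R.rot d
      rw [SimpleGraph.Dart.symm_symm]
    rw [e, hsym] at h
    exact h
  have hpow : ∀ (k : ℕ) (d : G.Dart), g ((R.rot ^ k) d) = g d := by
    intro k
    induction k with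
    | zero => intro d; rfl
    | succ k ih =>
      intro d
      rw [pow_succ', Equiv.Perm.mul_apply, hrot, ih]
  have hfst : ∀ d d' : G.Dart, d.fst = d'.fst → g d = g d' := by
    intro d d' h
    obtain ⟨k, hk⟩ := R.trans d d' h
    rw [← hk, hpow]
  have key : ∀ (a b : V) (p : G.Walk a b) (d d' : G.Dart), d.fst = a → d'.fst = b → g d = g d' := by
    intro a b p
    induction p with
    | nil => intro d d' h h'; exact hfst d d' (h.trans h'.symm)
    | cons hadj p ih =>
      intro d d' h h'
      rename_i x y z
      have e1 : g d = g (⟨(x, y), hadj⟩ : G.Dart) := hfst _ _ h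
      rw [e1, ← hsym]
      exact ih _ d' rfl h'
  intro d d'
  obtain ⟨p⟩ := hc d.fst d'.fst
  exact key _ _ p d d' rfl rfl

end Pool.Agent.CY
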