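import Pool.Agent.helper56.CY.Spec

/-!
# Row cy:ROT (MP_45d809_mp), owner helper56
-/

namespace Pool.Agent.CY
open Finset CT

theorem ROT : ROT_stmt := by
  intro V _ L e u v w i j k c m h
  have hp : (v :: w :: u :: L).Perm (u :: v :: w :: L) := by
    refine (List.Perm.cons v (List.Perm.swap u w L)).trans ?_
    exact List.Perm.swap u v (w :: L)
  have hf : (v :: w :: u :: L).toFinset = (u :: v :: w :: L).toFinset := List.toFinset_eq_of_perm _ _ hp
  have t := h.tri
  refine ⟨⟨hp.nodup_iff.2 t.nd, ?_, t.hj, t.hk, t.hi, t.vw, t.wu, t.uv, t.v2, t.v3, t.w2, t.w3, t.u2, t.u3⟩,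
    ?_, ?_⟩
  · rw [hf]
    exact t.act
  · rw [hf]
    exact h.ev
  · rw [hf]
    intro d hd
    rw [h.col d hd]
    tauto

end Pool.Agent.CY
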