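import Pool.Agent.helper56.CY.Spec

/-!
# Row cy:ZCG (MP_45d809_mp), owner helper56
-/

namespace Pool.Agent.CY
open Finset CT

section ZCG
variable {V : Type} [DecidableEq V]

private theorem ZCG_join (T : Finset (V × Fin 4)) (e e' : V × Fin 4 → V × Fin 4) (x y : V × Fin 4)
    (hx : x ∈ T) (hy : y ∈ T) (h : ∀ d ∈ T, e d = e' d) : ∀ d ∈ T, join e x y d = join e' x y d := by
  intro d hd
  unfold join
  rw [h d hd, h x hx, h y hy]

private theorem ZCG_lp (T : Finset (V × Fin 4)) (e e' : V × Fin 4 → V × Fin 4) (x y : V × Fin 4)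
    (hx : x ∈ T) (h : ∀ d ∈ T, e d = e' d) : lp e x y = lp e' x y := by
  unfold CT.lp
  rw [h x hx]

end ZCG

theorem ZCG : ZCG_stmt := by
  intro V _ x L
  induction L with
  | nil => intro e e' _; rfl
  | cons u L ih =>
    intro e e' h
    set T := dts (u :: L).toFinset with hT
    have hu : ∀ a : Fin 4, (u, a) ∈ T := by
      intro a
      rw [hT]
      simp [dts]
    have hL : ∀ d ∈ dts L.toFinset, d ∈ T := by
      intro d hd
      rw [hT]
      unfold dts at hd ⊢
      rw [mem_product] at hd ⊢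
      refine ⟨?_, hd.2⟩
      rw [List.toFinset_cons]
      exact mem_insert_of_mem hd.1
    unfold Z
    refine sum_congr rfl fun t _ => ?_
    have h1 := ZCG_join T e e' (u, (pr t).1) (u, (pr t).2.1) (hu _) (hu _) h
    have h2 := ZCG_join T _ _ (u, (pr t).2.2.1) (u, (pr t).2.2.2) (hu _) (hu _) h1
    have h3 : ls e u t = ls e' u t := by
      unfold ls
      rw [ZCG_lp T e e' _ _ (hu _) h, ZCG_lp T _ _ _ _ (hu _) h1]
    rw [h3, ih (sm e u t) (sm e' u t) fun d hd => h2 d (hL d hd)]

end Pool.Agent.CY
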